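import Pool.Agent.V11286.CBP.Final

/-!
# The second binary digit of coloured binary partition counts is unbounded for `m = 1023`

`c m n` is the coefficient of `x^n` in `(1-x)^(-m) ∏_{j ≥ 0} (1-x^(2^j))^(-m)`, and
`u m n` is the 2-adic valuation of (odd part of `c m n`) minus one.
We show that for `m = 2^(2·5) - 1 = 1023` the values `u m n` (over `n ≥ 1`) are unbounded.
-/

namespace Pool.Agent.Results.MP_8a294c_nt.UnboundedDigit

open PowerSeries

noncomputable section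

/-- the geometric series `1/(1 - x^(2^j)) = ∑ x^(2^j i)` -/
def geom (j : ℕ) : ℕ⟦X⟧ := PowerSeries.mk fun i => if 2 ^ j ∣ i then 1 else 0

/-- `c m n` is the coefficient of `x^n` in `(1-x)^(-m) ∏_{j ≥ 0} (1-x^(2^j))^(-m)`; the factors
with `j > n` do not influence that coefficient (see `c_eq`) and are left out. -/
def c (m n : ℕ) : ℕ :=
  coeff n ((geom 0 * ∏ j ∈ Finset.range (n + 1), geom j) ^ m)

/-- `u m n` is the 2-adic valuation of `q - 1`, where `q` is the odd part of `c m n`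
(it is `⊤` exactly when `q = 1`). -/
def u (m n : ℕ) : ℕ∞ := emultiplicity 2 (ordCompl[2] (c m n) - 1)

section link

open Pool.Agent.V11286.CBP (D geo z D_X geo_mul Dgeo_mul h_mul coeff_D_even coeff_D_odd K)

/-- the integer version of `geom` -/
def gz (j : ℕ) : ℤ⟦X⟧ := PowerSeries.mk fun i => if 2 ^ j ∣ i then 1 else 0

lemma map_geom (j : ℕ) : PowerSeries.map (Nat.castRingHom ℤ) (geom j) = gz j := by
  ext i
  simp only [geom, gz, coeff_map, coeff_mk]
  split_ifs <;> simp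

lemma gz_zero : gz 0 = geo := by
  ext i
  simp [gz, geo]

lemma D_gz (j : ℕ) : D (gz j) = gz (j + 1) := by
  ext i
  rcases Nat.even_or_odd' i with ⟨n, rfl | rfl⟩
  · rw [coeff_D_even]
    simp only [gz, coeff_mk]
    have : (2 ^ j ∣ n) ↔ (2 ^ (j + 1) ∣ 2 * n) := by
      rw [pow_succ, mul_comm (2 ^ j) 2]
      exact (Nat.mul_dvd_mul_iff_left (by norm_num)).symm
    simp only [this]
  · rw [coeff_D_odd]
    simp only [gz, coeff_mk]
    rw [if_neg]
    intro h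
    have h2 : 2 ∣ 2 ^ (j + 1) := dvd_pow_self 2 (by omega)
    have := h2.trans h
    omega

/-- the truncated product -/
def G (J : ℕ) : ℤ⟦X⟧ := gz 0 * ∏ j ∈ Finset.range J, gz j

lemma G_succ' (J : ℕ) : G (J + 1) = (1 + z) * D (G J) := by
  unfold G
  rw [map_mul, map_prod, Finset.prod_range_succ', D_gz]
  simp only [D_gz]
  -- gz 0 * (P * gz 0) = (1 + z) * (gz 1 * P)
  have h : gz 0 * gz 0 = (1 + z) * gz 1 := by
    rw [← D_gz, gz_zero]
    have h1 := geo_mul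
    have h2 := Dgeo_mul
    have h3 := h_mul
    -- (1-X)(1-X^2)-cancellation
    calc geo * geo = geo * geo * ((1 - X ^ 2) * D geo) := by rw [h2, mul_one]
      _ = geo * ((1 - X) * geo) * ((1 + X) * D geo) := by ring
      _ = geo * (1 + X) * D geo := by rw [h1]; ring
      _ = geo * ((1 - X) * (1 + z)) * D geo := by rw [h3]
      _ = ((1 - X) * geo) * ((1 + z) * D geo) := by ring
      _ = (1 + z) * D geo := by rw [h1, one_mul]
  calc gz 0 * ((∏ k ∈ Finset.range J, gz (k + 1)) * gz 0)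
      = (gz 0 * gz 0) * ∏ k ∈ Finset.range J, gz (k + 1) := by ring
    _ = _ := by rw [h]; ring

lemma X_pow_dvd_gz (J : ℕ) : (X : ℤ⟦X⟧) ^ (2 ^ J) ∣ gz J - 1 := by
  rw [X_pow_dvd_iff]
  intro i hi
  rw [map_sub, coeff_one]
  simp only [gz, coeff_mk]
  rcases Nat.eq_zero_or_pos i with rfl | h
  · simp
  · rw [if_neg, if_neg (by omega)]
    · simp
    · intro hd
      exact absurd (Nat.le_of_dvd h hd) (by omega)

lemma X_pow_dvd_G (J : ℕ) : (X : ℤ⟦X⟧) ^ (2 ^ J) ∣ G (J + 1) - G J := by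
  have : G (J + 1) - G J = G J * (gz J - 1) := by
    unfold G
    rw [Finset.prod_range_succ]
    ring
  rw [this]
  exact (X_pow_dvd_gz J).mul_left _

lemma X_pow_dvd_G' (J J' : ℕ) (h : J ≤ J') : (X : ℤ⟦X⟧) ^ (2 ^ J) ∣ G J' - G J := by
  induction J', h using Nat.le_induction with
  | base => simp
  | succ k hk ih =>
    have h1 : (X : ℤ⟦X⟧) ^ (2 ^ J) ∣ G (k + 1) - G k :=
      (pow_dvd_pow _ (Nat.pow_le_pow_right (by norm_num) hk)).trans (X_pow_dvd_G k)
    have := dvd_add h1 ih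
    rwa [sub_add_sub_cancel] at this

lemma coeff_G_pow (m J J' n : ℕ) (h : J ≤ J') (hn : n < 2 ^ J) :
    coeff n (G J' ^ m) = coeff n (G J ^ m) := by
  have h1 : (X : ℤ⟦X⟧) ^ (2 ^ J) ∣ G J' ^ m - G J ^ m :=
    (X_pow_dvd_G' J J' h).trans (sub_dvd_pow_sub_pow _ _ m)
  rw [X_pow_dvd_iff] at h1
  have := h1 n hn
  rw [map_sub, sub_eq_zero] at this
  exact this

lemma cast_coeff (m J n : ℕ) :
    ((coeff n ((geom 0 * ∏ j ∈ Finset.range J, geom j) ^ m) : ℕ) : ℤ) = coeff n (G J ^ m) := by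
  have h : G J ^ m = PowerSeries.map (Nat.castRingHom ℤ)
      ((geom 0 * ∏ j ∈ Finset.range J, geom j) ^ m) := by
    rw [map_pow, map_mul, map_prod, map_geom]
    simp only [map_geom, G]
  rw [h, coeff_map]
  simp

lemma cast_c (m J n : ℕ) (hn : n < 2 ^ J) : (c m n : ℤ) = coeff n (G J ^ m) := by
  unfold c
  rw [cast_coeff]
  have h1 : n < 2 ^ (n + 1) := lt_trans Nat.lt_two_pow_self (Nat.pow_lt_pow_right (by norm_num) (by omega))
  rcases le_total J (n + 1) with h | h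
  · exact coeff_G_pow m J (n + 1) n h hn
  · exact (coeff_G_pow m (n + 1) J n h h1).symm

/-- The coefficient `c m n` may be computed from any truncation of the infinite product at
`j < J` with `n < 2^J`. -/
lemma c_eq (m J n : ℕ) (hn : n < 2 ^ J) :
    c m n = coeff n ((geom 0 * ∏ j ∈ Finset.range J, geom j) ^ m) := by
  have h1 := cast_c m J n hn
  rw [← cast_coeff] at h1
  exact_mod_cast h1

/-- the generating series of `c m`, over the integers -/
def F (m : ℕ) : ℤ⟦X⟧ := PowerSeries.mk fun n => (c m n : ℤ)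

lemma F_close (m J : ℕ) : (X : ℤ⟦X⟧) ^ (2 ^ J) ∣ F m - G J ^ m := by
  rw [X_pow_dvd_iff]
  intro n hn
  rw [map_sub, F, coeff_mk, cast_c m J n hn, sub_self]

lemma D_dvd {f : ℤ⟦X⟧} {N : ℕ} (h : (X : ℤ⟦X⟧) ^ N ∣ f) : (X : ℤ⟦X⟧) ^ N ∣ D f := by
  obtain ⟨g, rfl⟩ := h
  rw [map_mul, map_pow, D_X, ← pow_mul, mul_comm 2 N, pow_mul]
  exact (dvd_pow_self _ (by norm_num)).mul_right _

lemma F_functional (m : ℕ) : F m = (1 + z) ^ m * D (F m) := by
  have key : ∀ J : ℕ, (X : ℤ⟦X⟧) ^ (2 ^ J) ∣ F m - (1 + z) ^ m * D (F m) := by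
    intro J
    have h1 : (X : ℤ⟦X⟧) ^ (2 ^ J) ∣ F m - G (J + 1) ^ m :=
      (pow_dvd_pow _ (Nat.pow_le_pow_right (by norm_num) (by omega))).trans (F_close m (J + 1))
    have h2 : (X : ℤ⟦X⟧) ^ (2 ^ J) ∣ (1 + z) ^ m * D (F m - G J ^ m) :=
      (D_dvd (F_close m J)).mul_left _
    have h3 : G (J + 1) ^ m = (1 + z) ^ m * D (G J ^ m) := by
      rw [G_succ', mul_pow, map_pow]
    have h4 := dvd_sub h1 h2
    rw [h3, map_sub] at h4
    have e : F m - (1 + z) ^ m * D (G J ^ m) - (1 + z) ^ m * (D (F m) - D (G J ^ m))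
        = F m - (1 + z) ^ m * D (F m) := by ring
    rwa [e] at h4
  ext n
  have h := key n
  rw [X_pow_dvd_iff] at h
  have := h n Nat.lt_two_pow_self
  rw [map_sub, sub_eq_zero] at this
  exact this

lemma F_coeff_zero (m : ℕ) : coeff 0 (F m) = 1 := by
  have h : coeff 0 (F m) = coeff 0 (G 0 ^ m) := by
    rw [F, coeff_mk, cast_c m 0 0 (by norm_num)]
  rw [h]
  simp [G, gz]

end link

open Pool.Agent.V11286.CBP in
/-- `c 1023 n` comes arbitrarily close to `2^11`, 2-adically. -/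
lemma exists_c_close (C : ℕ) : ∃ n, 1 ≤ n ∧ (2 : ℤ) ^ (24 + C) ∣ (c 1023 n : ℤ) - 2 ^ 11 := by
  have hF : F 1023 = K * D (F 1023) := by
    have := F_functional 1023
    unfold K
    exact this
  obtain ⟨n, hn, hd⟩ := exists_close hF (F_coeff_zero 1023) C
  refine ⟨n, hn, ?_⟩
  rw [F, coeff_mk] at hd
  exact hd

/-- For `m = 2^(2·5) - 1 = 1023` the values `u m n`, `n ≥ 1`, are not bounded. -/
theorem result (C : ℕ) : ∃ n, 1 ≤ n ∧ (C : ℕ∞) < u (2 ^ (2 * 5) - 1) n := by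
  have h1023 : 2 ^ (2 * 5) - 1 = 1023 := by norm_num
  rw [h1023]
  obtain ⟨n, hn, hd⟩ := exists_c_close C
  refine ⟨n, hn, ?_⟩
  -- `c = 2^11 (1 + 2^(13+C) a)`
  obtain ⟨a, ha⟩ := hd
  have hc : (c 1023 n : ℤ) = 2 ^ 11 * (1 + 2 ^ (13 + C) * a) := by
    have : (2 : ℤ) ^ (24 + C) = 2 ^ 11 * 2 ^ (13 + C) := by rw [← pow_add]; congr 1; ring
    rw [this] at ha
    linear_combination ha
  have ha0 : 0 ≤ a := by
    by_contra h
    push Not at h
    have h1 : (2 : ℤ) ^ (13 + C) * a ≤ -(2 ^ (13 + C)) := by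
      have : (0 : ℤ) < 2 ^ (13 + C) := by positivity
      nlinarith
    have h2 : (2 : ℤ) ≤ 2 ^ (13 + C) := by
      calc (2 : ℤ) = 2 ^ 1 := by norm_num
        _ ≤ 2 ^ (13 + C) := pow_le_pow_right₀ (by norm_num) (by omega)
    have h3 : (0 : ℤ) ≤ c 1023 n := Int.natCast_nonneg _
    rw [hc] at h3
    have h4 : (1 + 2 ^ (13 + C) * a : ℤ) < 0 := by linarith
    have : (2 : ℤ) ^ 11 * (1 + 2 ^ (13 + C) * a) < 0 := mul_neg_of_pos_of_neg (by norm_num) h4
    linarith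
  obtain ⟨b, rfl⟩ := Int.eq_ofNat_of_zero_le ha0
  have hcn : c 1023 n = 2 ^ 11 * (1 + 2 ^ (13 + C) * b) := by exact_mod_cast hc
  have hodd : ¬ 2 ∣ (1 + 2 ^ (13 + C) * b) := by
    have : 2 ∣ 2 ^ (13 + C) * b := (dvd_pow_self 2 (by omega)).mul_right _
    omega
  have hq : ordCompl[2] (c 1023 n) = 1 + 2 ^ (13 + C) * b := by
    rw [hcn]
    exact Nat.ordCompl_pow_mul_of_not_dvd 11 Nat.prime_two hodd
  unfold u
  rw [hq, Nat.add_sub_cancel_left]
  have h1 : (((C + 1 : ℕ)) : ℕ∞) ≤ emultiplicity 2 (2 ^ (13 + C) * b) := by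
    rw [← pow_dvd_iff_le_emultiplicity]
    exact (pow_dvd_pow 2 (by omega)).mul_right _
  refine lt_of_lt_of_le ?_ h1
  exact_mod_cast Nat.lt_succ_self C

end

end Pool.Agent.Results.MP_8a294c_nt.UnboundedDigit
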